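import Pool.Agent.Helper21.CU.St2
import Pool.Agent.Helper48.BK.StD

set_option autoImplicit false

/-! Module QPR of the project CU (MP_ad0dc2_nt, owner helper21): primes 2 mod 3 in (Q/2, Q]. -/

namespace Pool.Agent.Helper18.CU

open Pool.Agent.Helper21.CU Finset
open Pool.Agent.Helper48.BK (th StSW)

theorem hQPR (hSW : StSW) : StQPR := by
  intro k hk
  obtain ⟨x₀, hx⟩ := hSW 1 1
  obtain ⟨N, hN⟩ := exists_nat_gt (Real.exp 20)
  refine ⟨max (max x₀ N) (max 2 (6 * k.natAbs + 4)),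
    le_trans (le_max_left _ _) (le_max_right _ _), fun Q hQ => ?_⟩
  have hQ0 : x₀ ≤ Q := le_trans (le_trans (le_max_left _ _) (le_max_left _ _)) hQ
  have hQN : N ≤ Q := le_trans (le_trans (le_max_right _ _) (le_max_left _ _)) hQ
  have hQk : 6 * k.natAbs + 4 ≤ Q :=
    le_trans (le_trans (le_max_right _ _) (le_max_right _ _)) hQ
  have hQN' : (N : ℝ) ≤ Q := by exact_mod_cast hQN
  have hQpos : (0 : ℝ) < Q := by
    have : 0 < Q := by omega
    exact_mod_cast this
  have hlog : 20 ≤ Real.log Q := by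
    rw [Real.le_log_iff_exp_le hQpos]
    linarith
  have hc : Nat.Coprime 2 3 := by norm_num
  have ht : Nat.totient 3 = 2 := by decide
  have h3 : ((3 : ℕ) : ℝ) ≤ Real.log Q ^ 1 := by
    rw [pow_one]; push_cast; linarith
  have h1 := hx Q Q 3 2 hQ0 le_rfl (by norm_num) h3
  have h2 := hx Q (Q / 2) 3 2 hQ0 (Nat.div_le_self _ _) (by norm_num) h3
  rw [if_pos hc, ht, pow_one] at h1 h2
  set S1 := ∑ n ∈ (Ioc 0 Q).filter (fun n => n ≡ 2 [MOD 3]), th n with hS1
  set S2 := ∑ n ∈ (Ioc 0 (Q / 2)).filter (fun n => n ≡ 2 [MOD 3]), th n with hS2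
  have hdiff : S1 = S2 + ∑ n ∈ (Ioc (Q / 2) Q).filter (fun n => n ≡ 2 [MOD 3]), th n := by
    rw [hS1, hS2, sum_filter, sum_filter, sum_filter]
    exact (Finset.sum_Ioc_consecutive _ (Nat.zero_le _) (Nat.div_le_self _ _)).symm
  have hle : ∑ n ∈ (Ioc (Q / 2) Q).filter (fun n => n ≡ 2 [MOD 3]), th n ≤
      (((Ioc (Q / 2) Q).filter
        (fun p : ℕ => p.Prime ∧ p % 3 = 2 ∧ ¬ (p : ℤ) ∣ 3 * k)).card : ℝ) * Real.log Q := by
    rw [← nsmul_eq_mul]
    have e : ∑ n ∈ (Ioc (Q / 2) Q).filter (fun n => n ≡ 2 [MOD 3]), th n =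
        ∑ n ∈ (Ioc (Q / 2) Q).filter
          (fun p : ℕ => p.Prime ∧ p % 3 = 2 ∧ ¬ (p : ℤ) ∣ 3 * k), th n := by
      symm
      apply Finset.sum_subset_zero_on_sdiff
      · intro n hn
        rw [mem_filter] at hn ⊢
        exact ⟨hn.1, hn.2.2.1⟩
      · intro n hn
        rw [mem_sdiff, mem_filter, mem_filter] at hn
        obtain ⟨⟨hn1, hn2⟩, hn3⟩ := hn
        have hnp : ¬ n.Prime := by
          intro hp
          apply hn3
          refine ⟨hn1, hp, hn2, ?_⟩
          intro hdvd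
          have hne : (3 * k : ℤ) ≠ 0 := by omega
          have h5 := Int.natAbs_dvd_natAbs.mpr hdvd
          have h6 := Nat.le_of_dvd (Int.natAbs_pos.mpr hne) h5
          rw [mem_Ioc] at hn1
          omega
        unfold th
        rw [if_neg hnp]
      · intro n _
        rfl
    rw [e]
    apply Finset.sum_le_card_nsmul
    intro n hn
    rw [mem_filter, mem_Ioc] at hn
    unfold th
    rw [if_pos hn.2.1]
    apply Real.log_le_log
    · have := hn.2.1.pos
      exact_mod_cast this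
    · exact_mod_cast hn.1.2
  rw [abs_le] at h1 h2
  have hfl : ((Q / 2 : ℕ) : ℝ) ≤ Q / 2 := Nat.cast_div_le
  have hq : (Q : ℝ) / Real.log Q ≤ Q / 20 := by
    apply div_le_div_of_nonneg_left hQpos.le (by norm_num) hlog
  have hmain : (Q : ℝ) / 10 ≤
      (((Ioc (Q / 2) Q).filter
        (fun p : ℕ => p.Prime ∧ p % 3 = 2 ∧ ¬ (p : ℤ) ∣ 3 * k)).card : ℝ) * Real.log Q := by
    have a1 := h1.1
    have a2 := h2.2
    push_cast at a1 a2
    linarith
  rw [← div_div, div_le_iff₀ (by linarith)]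
  exact hmain

end Pool.Agent.Helper18.CU
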